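import Mathlib
import Pool.Agent.H.MP_a14af5_co.A

set_option autoImplicit false

namespace Pool.Agent.Results.MP_a14af5_co.Neg

open Pointwise Polynomial

/-- Faces of a convex `n`-gon with vertices `ZMod n` in cyclic order, given by their vertex sets. -/
def Face (n : ℕ) : Type :=
  {S : Set (ZMod n) // S = ∅ ∨ (∃ i, S = {i}) ∨ (∃ i, S = {i, i + 1}) ∨ S = Set.univ}

/-- The order polytope of the face lattice (faces ordered by inclusion). -/
def O (n : ℕ) : Set (Face n → ℝ) :=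
  {x | (∀ a, 0 ≤ x a ∧ x a ≤ 1) ∧ ∀ a b : Face n, a.1 ⊆ b.1 → x a ≤ x b}

/-- Number of lattice points of the dilate `t O`. -/
noncomputable def L (n t : ℕ) : ℕ := {x : Face n → ℤ | (fun a => (x a : ℝ)) ∈ (t : ℝ) • O n}.ncard

open Pool.Agent.H.MP_a14af5_co Pool.Agent.Lib.helper2.OrdPoly

def F : I → Finset (Fin 13) :=
  Sum.elim (fun c => bif c then Finset.univ else ∅) (Sum.elim (fun i => {i}) fun i => {i, i + 1})

theorem hF : ∀ a b, F a ⊆ F b ↔ r a b := by decide +kernel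

theorem iF : Function.Injective F := by decide +kernel

def E (a : I) : Face 13 := ⟨(F a : Set (Fin 13)), by
  rcases a with (_ | _) | i | i
  · exact Or.inl Finset.coe_empty
  · exact Or.inr (Or.inr (Or.inr Finset.coe_univ))
  · exact Or.inr (Or.inl ⟨i, Finset.coe_singleton i⟩)
  · exact Or.inr (Or.inr (Or.inl ⟨i, Finset.coe_pair⟩))⟩

theorem bE : Function.Bijective E := by
  refine ⟨fun a b h => iF (Finset.coe_injective (congrArg Subtype.val h)), ?_⟩
  rintro ⟨S, rfl | ⟨i, rfl⟩ | ⟨i, rfl⟩ | rfl⟩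
  · exact ⟨.inl false, Subtype.ext Finset.coe_empty⟩
  · exact ⟨.inr (.inl i), Subtype.ext (Finset.coe_singleton (α := Fin 13) i)⟩
  · exact ⟨.inr (.inr i), Subtype.ext (Finset.coe_pair (α := Fin 13))⟩
  · exact ⟨.inl true, Subtype.ext (Finset.coe_univ (α := Fin 13))⟩

theorem memO (n : ℕ) (t : ℝ) (ht : 0 ≤ t) (v : Face n → ℝ) : v ∈ t • O n ↔
    (∀ a, 0 ≤ v a ∧ v a ≤ t) ∧ ∀ a b : Face n, a.1 ⊆ b.1 → v a ≤ v b := by
  constructor
  · rintro ⟨w, ⟨h1, h2⟩, rfl⟩
    exact ⟨fun a => ⟨mul_nonneg ht (h1 a).1, mul_le_of_le_one_right ht (h1 a).2⟩,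
      fun a b h => mul_le_mul_of_nonneg_left (h2 a b h) ht⟩
  · rintro ⟨h1, h2⟩
    refine ⟨fun a => v a / t, ⟨fun a => ⟨div_nonneg (h1 a).1 ht, div_le_one_of_le₀ (h1 a).2 ht⟩,
      fun a b h => div_le_div_of_nonneg_right (h2 a b h) ht⟩, funext fun a => ?_⟩
    rcases ht.eq_or_lt with rfl | ht
    · exact (zero_mul _).trans (le_antisymm (h1 a).1 (h1 a).2)
    · exact mul_div_cancel₀ _ ht.ne'

theorem hL (t : ℕ) : L 13 t = (A (fun a b => r a b) (Finset.range (t + 1))).card := by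
  rw [L, ← Set.ncard_coe_finset]
  have hE : ∀ a b, (E a).1 ⊆ (E b).1 ↔ r a b := fun a b => Finset.coe_subset.trans (hF a b)
  simp only [memO _ _ (Nat.cast_nonneg t), Int.cast_le, Int.cast_nonneg_iff]
  refine Set.ncard_congr (fun x _ a => (x (E a)).toNat) ?_ ?_ ?_
  · rintro x ⟨h1, h2⟩
    simp only [A, Finset.coe_filter, Fintype.mem_piFinset, Set.mem_ofPred_eq, Finset.mem_range]
    refine ⟨fun a => ?_, fun a b h => Int.toNat_le_toNat (h2 _ _ ((hE a b).2 h))⟩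
    have : x (E a) ≤ t := by exact_mod_cast (h1 (E a)).2
    omega
  · rintro x y ⟨h1, -⟩ ⟨h2, -⟩ h
    funext c
    obtain ⟨a, rfl⟩ := bE.2 c
    have := congrFun h a
    have := (h1 (E a)).1
    have := (h2 (E a)).1
    omega
  · intro y hy
    simp only [A, Finset.coe_filter, Fintype.mem_piFinset, Set.mem_ofPred_eq,
      Finset.mem_range] at hy
    have k : ∀ a, (Equiv.ofBijective E bE).symm (E a) = a := (Equiv.ofBijective E bE).symm_apply_apply
    refine ⟨fun c => y ((Equiv.ofBijective E bE).symm c), ⟨fun c => ⟨Nat.cast_nonneg _, ?_⟩,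
      fun c d h => ?_⟩, funext fun a => ?_⟩
    · simp only [Int.cast_natCast, Nat.cast_le]
      exact Nat.lt_succ_iff.1 (hy.1 _)
    · obtain ⟨a, rfl⟩ := bE.2 c
      obtain ⟨b, rfl⟩ := bE.2 d
      simp only [k]
      exact_mod_cast hy.2 a b ((hE a b).1 h)
    · simp only [k, Int.toNat_natCast]

theorem result : ∃ n : ℕ, 3 ≤ n ∧ ∃ p : ℚ[X],
    (∀ t : ℕ, p.eval (t : ℚ) = L n t) ∧ ∃ i, p.coeff i < 0 := by
  obtain ⟨p, h1, h2⟩ := main
  exact ⟨13, by norm_num, p, fun t => by rw [h1, hL], 1, h2⟩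

end Pool.Agent.Results.MP_a14af5_co.Neg
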